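import Mathlib
import Pool.Agent.R475.UFL

open Filter

namespace Pool.Agent.Results.MP_31068f_lc.FeNotMDiv

open Pool.Agent.R475.UF

/-- The set `L`: ultrafilters containing, for some `n`, the set `L_n` of the positive integers
with exactly `n` prime factors counted with multiplicity. -/
def InL (F : Ultrafilter ℕ+) : Prop :=
  ∃ n : ℕ, {m : ℕ+ | (m : ℕ).primeFactorsList.length = n} ∈ F

/-- **Negative answer to MP_31068f_lc.** There are `F, G ∈ L` such that `F` is finitely embeddable
in `G` but `F` does not M-divide `G`. (`F` is on level 1, `G` on level 2.) -/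
theorem result : ∃ F G : Ultrafilter ℕ+, InL F ∧ InL G ∧ Fe F G ∧ ¬ MDiv F G := by
  have hF : InL F0 := ⟨1, by
    show ∀ᶠ z : ℕ+ in (F0 : Filter ℕ+), (PNat.val z).primeFactorsList.length = 1
    rw [ev_F0]
    refine Eventually.of_forall fun m => ?_
    have h : cnt Set.univ (P 0 m) = 1 := cnt_prime_mem (pr_prime _ _) trivial
    rwa [cnt_univ] at h⟩
  have hL : InL L0 := ⟨2, by
    show ∀ᶠ z : ℕ+ in (L0 : Filter ℕ+), (PNat.val z).primeFactorsList.length = 2
    rw [ev_L0]
    refine Eventually.of_forall fun i => Eventually.of_forall fun m =>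
      Eventually.of_forall fun k => ?_
    have h : cnt Set.univ (P 0 m) = 1 := cnt_prime_mem (pr_prime _ _) trivial
    have h' : cnt Set.univ (P (i + 1) k) = 1 := cnt_prime_mem (pr_prime _ _) trivial
    rw [← cnt_univ, cnt_mul, h, h']⟩
  exact ⟨F0, L0, hF, hL, fe_F0_L0, not_mdiv_F0_L0⟩

end Pool.Agent.Results.MP_31068f_lc.FeNotMDiv
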